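import Pool.Agent.Y858.BU.Stm
import Pool.Agent.W775.SR.Area

set_option autoImplicit false

/-!
Project BU (owner helper858), task AREA: the area formula with multiplicity for polynomials.
-/

namespace Pool.Agent.Y165.BU.Area

open Metric Set Filter Topology MeasureTheory Pool.Agent.Y858.BU Pool.Agent.W775.SR
open scoped ENNReal

theorem t : S_area := by
  classical
  intro P hP Φ hΦ
  set q : ℂ → ℂ := fun z => P.eval z with hqd
  have hq : DifferentiableOn ℂ q univ := fun z _ =>
    (P.hasDerivAt z).differentiableAt.differentiableWithinAt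
  have hder : ∀ z, deriv q z = P.derivative.eval z := fun z => (P.hasDerivAt z).deriv
  have hP' : P.derivative ≠ 0 := by
    intro h
    have := Polynomial.derivative_eq_zero.1 h
    omega
  have hPc : ∀ c : ℂ, P - Polynomial.C c ≠ 0 := by
    intro c h
    have h1 : P = Polynomial.C c := by linear_combination h
    have : P.natDegree = 0 := by rw [h1]; exact Polynomial.natDegree_C c
    omega
  have hroot : ∀ c z : ℂ, z ∈ (P - Polynomial.C c).roots.toFinset ↔ q z = c := by
    intro c z
    rw [Multiset.mem_toFinset, Polynomial.mem_roots (hPc c), Polynomial.IsRoot.def,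
      Polynomial.eval_sub, Polynomial.eval_C, sub_eq_zero]
  set Z : Set ℂ := {z | P.derivative.eval z = 0} with hZ
  have hZf : Z.Finite := by
    have : Z = ↑(P.derivative.roots.toFinset) := by
      ext z
      simp [hZ, hP']
    rw [this]
    exact Finset.finite_toSet _
  set U' : Set ℂ := {z | P.derivative.eval z ≠ 0} with hU'
  have hU'Z : U'ᶜ = Z := by
    ext z
    simp [hU', hZ]
  have hU'o : IsOpen U' := by
    rw [← isClosed_compl_iff, hU'Z]
    exact hZf.isClosed
  have hcov : ∀ z, ∃ V : Set ℂ, z ∈ U' → (IsOpen V ∧ z ∈ V ∧ InjOn q V) := by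
    intro z
    by_cases hz : z ∈ U'
    · obtain ⟨V, h1, h2, h3⟩ := exists_inj_nhd isOpen_univ hq (mem_univ z)
        (by rw [hder]; exact hz)
      exact ⟨V, fun _ => ⟨h1, h2, h3⟩⟩
    · exact ⟨∅, fun h => absurd h hz⟩
  choose V hV using hcov
  obtain ⟨t, htU, htc, ht⟩ := TopologicalSpace.countable_cover_nhdsWithin (s := U') (f := V)
    (fun z hz => mem_nhdsWithin_of_mem_nhds ((hV z hz).1.mem_nhds (hV z hz).2.1))
  -- enumerate
  obtain ⟨W, hWo, hWi, hWc⟩ : ∃ W : ℕ → Set ℂ, (∀ n, IsOpen (W n)) ∧ (∀ n, InjOn q (W n)) ∧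
      U' ⊆ ⋃ n, W n := by
    rcases t.eq_empty_or_nonempty with h | h
    · rw [h] at ht
      simp only [mem_empty_iff_false, iUnion_of_empty, iUnion_empty] at ht
      exact ⟨fun _ => ∅, fun _ => isOpen_empty, fun _ => injOn_empty _,
        fun z hz => absurd (ht hz) (notMem_empty z)⟩
    · obtain ⟨f, hf⟩ := htc.exists_eq_range h
      have hft : ∀ n, f n ∈ U' := fun n => htU (by rw [hf]; exact mem_range_self n)
      refine ⟨fun n => V (f n), fun n => (hV _ (hft n)).1, fun n => (hV _ (hft n)).2.2, ?_⟩
      intro z hz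
      obtain ⟨x, hx, hzx⟩ := mem_iUnion₂.1 (ht hz)
      rw [hf] at hx
      obtain ⟨n, rfl⟩ := hx
      exact mem_iUnion.2 ⟨n, hzx⟩
  set E : ℕ → Set ℂ := disjointed fun n => W n ∩ U' with hE
  have hEm : ∀ n, MeasurableSet (E n) :=
    MeasurableSet.disjointed fun n => ((hWo n).inter hU'o).measurableSet
  have hEsub : ∀ n, E n ⊆ W n ∩ U' := fun n => disjointed_subset _ n
  have hEinj : ∀ n, InjOn q (E n) := fun n => (hWi n).mono ((hEsub n).trans inter_subset_left)
  have hEd : Pairwise (Function.onFun Disjoint E) := disjoint_disjointed _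
  have hEun : ⋃ n, E n = U' := by
    rw [hE, iUnion_disjointed]
    apply Subset.antisymm
    · exact iUnion_subset fun n => inter_subset_right
    · intro z hz
      obtain ⟨n, hn⟩ := mem_iUnion.1 (hWc hz)
      exact mem_iUnion.2 ⟨n, hn, hz⟩
  have hemb : ∀ n, MeasurableEmbedding ((E n).domRestrict q) := by
    intro n
    have hd : ∀ z ∈ E n, HasFDerivWithinAt q
        ((ContinuousLinearMap.toSpanSingleton ℂ (deriv q z)).restrictScalars ℝ : ℂ →L[ℝ] ℂ)
        (E n) z := by
      intro z hz
      have h1 : HasDerivAt q (deriv q z) z := (P.hasDerivAt z).differentiableAt.hasDerivAt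
      exact (h1.hasFDerivAt.restrictScalars ℝ).hasFDerivWithinAt
    exact measurableEmbedding_of_fderivWithin (hEm n) hd (hEinj n)
  set g : ℕ → ℂ → ℝ≥0∞ := fun n =>
    Function.extend ((E n).domRestrict q) (fun z => Φ z) 0 with hg
  have hgm : ∀ n, Measurable (g n) := fun n =>
    (hemb n).measurable_extend (hΦ.comp measurable_subtype_coe) measurable_zero
  have hgv : ∀ n, ∀ z ∈ E n, g n (q z) = Φ z := by
    intro n z hz
    have := (hemb n).injective.extend_apply (fun z => Φ z) 0 ⟨z, hz⟩
    exact this
  have hgz : ∀ n, ∀ c, c ∉ q '' (E n) → g n c = 0 := by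
    intro n c hc
    simp only [hg]
    rw [Function.extend_apply']
    · rfl
    · rintro ⟨⟨z, hz⟩, rfl⟩
      exact hc ⟨z, hz, rfl⟩
  -- left side
  have hL : ∫⁻ z : ℂ, ENNReal.ofReal (‖P.derivative.eval z‖ ^ 2) * Φ z =
      ∑' n, ∫⁻ c, g n c := by
    have h1 : ∫⁻ z : ℂ, ENNReal.ofReal (‖P.derivative.eval z‖ ^ 2) * Φ z =
        ∫⁻ z in U', ENNReal.ofReal (‖P.derivative.eval z‖ ^ 2) * Φ z := by
      rw [← lintegral_indicator hU'o.measurableSet]
      congr 1
      funext z
      by_cases hz : z ∈ U'
      · rw [indicator_of_mem hz]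
      · rw [indicator_of_notMem hz]
        have : P.derivative.eval z = 0 := by
          by_contra h
          exact hz h
        rw [this]
        simp
    rw [h1, ← hEun, lintegral_iUnion hEm hEd]
    congr 1
    funext n
    have hm : MeasurableSet (q '' (E n)) := by
      have := (hemb n).measurableSet_range
      rwa [Set.range_domRestrict] at this
    have h2 : ∫⁻ c, g n c = ∫⁻ c in q '' (E n), g n c := by
      rw [← lintegral_indicator hm]
      congr 1
      funext c
      by_cases hc : c ∈ q '' (E n)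
      · rw [indicator_of_mem hc]
      · rw [indicator_of_notMem hc, hgz n c hc]
    rw [h2, area_inj isOpen_univ hq (hEm n) (subset_univ _) (hEinj n)]
    apply setLIntegral_congr_fun (hEm n)
    intro z hz
    simp only [hder]
    rw [hgv n z hz]
  -- right side
  have hR : ∀ c, c ∉ q '' Z → ∑ z ∈ (P - Polynomial.C c).roots.toFinset, Φ z = ∑' n, g n c := by
    intro c hc
    have h1 : ∀ z ∈ (P - Polynomial.C c).roots.toFinset,
        Φ z = ∑' n, (if z ∈ E n then Φ z else 0) := by
      intro z hz
      rw [hroot] at hz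
      have hzU : z ∈ U' := by
        intro h
        exact hc ⟨z, h, hz⟩
      rw [← hEun] at hzU
      obtain ⟨n, hn⟩ := mem_iUnion.1 hzU
      rw [tsum_eq_single n]
      · rw [if_pos hn]
      · intro k hk
        rw [if_neg]
        intro hk'
        exact (Set.disjoint_left.1 (hEd hk)) hk' hn
    rw [Finset.sum_congr rfl h1, ← Summable.tsum_finsetSum fun _ _ => ENNReal.summable]
    congr 1
    funext n
    by_cases hcn : c ∈ q '' (E n)
    · obtain ⟨z, hz, hzc⟩ := hcn
      rw [Finset.sum_eq_single z]
      · rw [if_pos hz, ← hzc, hgv n z hz]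
      · intro w hw hwz
        rw [if_neg]
        intro hwE
        rw [hroot] at hw
        exact hwz (hEinj n hwE hz (hw.trans hzc.symm))
      · intro hz'
        exact absurd ((hroot c z).2 hzc) hz'
    · rw [hgz n c hcn]
      apply Finset.sum_eq_zero
      intro z hz
      rw [if_neg]
      intro hzE
      rw [hroot] at hz
      exact hcn ⟨z, hzE, hz⟩
  rw [hL, ← lintegral_tsum fun n => (hgm n).aemeasurable]
  symm
  apply lintegral_congr_ae
  have hnull : volume (q '' Z) = 0 := (hZf.image q).measure_zero volume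
  filter_upwards [measure_eq_zero_iff_ae_notMem.1 hnull] with c hc
  exact hR c hc

end Pool.Agent.Y165.BU.Area
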