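import Pool.Agent.Y858.BU.Stm

set_option autoImplicit false

/-!
Project BU (owner helper858), task EX: the polynomial `z - a z ^ n`, `a = (n-1)^(n-1) / n^n`, is
bi-univalent.
-/

namespace Pool.Agent.Y165.BU.Ex

open Set Filter Topology Metric Pool.Agent.Y858.BU

theorem norm_pow_sub_le (n : ℕ) (z w : ℂ) (r : ℝ) (hz : ‖z‖ ≤ r) (hw : ‖w‖ ≤ r) :
    ‖z ^ (n + 1) - w ^ (n + 1)‖ ≤ (n + 1) * r ^ n * ‖z - w‖ := by
  have hr : 0 ≤ r := (norm_nonneg z).trans hz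
  rw [← (Commute.all z w).mul_geom_sum₂ (n + 1), norm_mul, mul_comm]
  refine mul_le_mul_of_nonneg_right ?_ (norm_nonneg _)
  refine (norm_sum_le _ _).trans ?_
  calc ∑ i ∈ Finset.range (n + 1), ‖z ^ i * w ^ (n + 1 - 1 - i)‖
      ≤ ∑ _i ∈ Finset.range (n + 1), r ^ n := by
        refine Finset.sum_le_sum fun i hi => ?_
        rw [Finset.mem_range] at hi
        rw [norm_mul, norm_pow, norm_pow]
        calc ‖z‖ ^ i * ‖w‖ ^ (n + 1 - 1 - i) ≤ r ^ i * r ^ (n + 1 - 1 - i) := by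
              gcongr
          _ = r ^ n := by
              rw [← pow_add]
              congr 1
              omega
    _ = (n + 1) * r ^ n := by
        rw [Finset.sum_const, Finset.card_range, nsmul_eq_mul]
        push_cast
        ring

theorem ast_pos (m : ℕ) (hm : 1 ≤ m) : 0 < ast m := by
  unfold ast
  have : (0 : ℝ) < m := by exact_mod_cast hm
  positivity

/-- the radius -/
noncomputable def rad (m : ℕ) : ℝ := ((m : ℝ) + 1) / m

theorem rad_gt (m : ℕ) (hm : 1 ≤ m) : 1 < rad m := by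
  have : (0 : ℝ) < m := by exact_mod_cast hm
  unfold rad
  rw [lt_div_iff₀ this]
  linarith

theorem ast_rad (m : ℕ) (hm : 1 ≤ m) : ast m * ((m + 1) * rad m ^ m) = 1 := by
  have h : (0 : ℝ) < m := by exact_mod_cast hm
  unfold ast rad
  rw [div_pow, pow_succ]
  field_simp

theorem ast_rad' (m : ℕ) (hm : 1 ≤ m) : rad m - ast m * rad m ^ (m + 1) = 1 := by
  have h : (0 : ℝ) < m := by exact_mod_cast hm
  have h1 := ast_rad m hm
  have h2 : ast m * rad m ^ (m + 1) = 1 / m := by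
    have : ast m * rad m ^ (m + 1) = (ast m * ((m + 1) * rad m ^ m)) * (rad m / (m + 1)) := by
      rw [pow_succ]
      field_simp
    rw [this, h1]
    unfold rad
    field_simp
  rw [h2]
  unfold rad
  field_simp
  ring

theorem lip_lt (m : ℕ) (hm : 1 ≤ m) {r : ℝ} (hr0 : 0 ≤ r) (hr : r < rad m) :
    ast m * ((m + 1) * r ^ m) < 1 := by
  have := ast_pos m hm
  have h2 : r ^ m < rad m ^ m := pow_lt_pow_left₀ hr hr0 (by omega)
  have h3 : (0 : ℝ) < (m : ℝ) + 1 := by positivity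
  calc ast m * ((m + 1) * r ^ m) < ast m * ((m + 1) * rad m ^ m) := by gcongr
    _ = 1 := ast_rad m hm

/-- the polynomial -/
noncomputable def ff (m : ℕ) (z : ℂ) : ℂ := z - (ast m : ℂ) * z ^ (m + 1)

theorem ff_lower (m : ℕ) (hm : 1 ≤ m) {r : ℝ} (z w : ℂ) (hz : ‖z‖ ≤ r) (hw : ‖w‖ ≤ r) :
    (1 - ast m * ((m + 1) * r ^ m)) * ‖z - w‖ ≤ ‖ff m z - ff m w‖ := by
  have h1 := norm_pow_sub_le m z w r hz hw
  have h2 : ff m z - ff m w = (z - w) - (ast m : ℂ) * (z ^ (m + 1) - w ^ (m + 1)) := by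
    unfold ff
    ring
  have h3 : ‖(ast m : ℂ) * (z ^ (m + 1) - w ^ (m + 1))‖ ≤ ast m * ((m + 1) * r ^ m * ‖z - w‖) := by
    rw [norm_mul, Complex.norm_real, Real.norm_of_nonneg (ast_pos m hm).le]
    exact mul_le_mul_of_nonneg_left h1 (ast_pos m hm).le
  have h4 := norm_sub_norm_le (z - w) ((ast m : ℂ) * (z ^ (m + 1) - w ^ (m + 1)))
  rw [h2]
  linarith

theorem ff_inj (m : ℕ) (hm : 1 ≤ m) : InjOn (ff m) (ball 0 (rad m)) := by
  intro z hz w hw h
  rw [mem_ball_zero_iff] at hz hw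
  set r := max ‖z‖ ‖w‖ with hr
  have hr0 : 0 ≤ r := (norm_nonneg z).trans (le_max_left _ _)
  have h1 := ff_lower m hm z w (le_max_left ‖z‖ ‖w‖) (le_max_right _ _)
  have h2 := lip_lt m hm hr0 (max_lt hz hw)
  rw [h, sub_self, norm_zero] at h1
  by_contra hne
  have h3 : 0 < ‖z - w‖ := norm_pos_iff.2 (sub_ne_zero.2 hne)
  have : 0 < (1 - ast m * ((m + 1) * r ^ m)) * ‖z - w‖ := mul_pos (by linarith) h3
  linarith

/-- suitable radius -/
theorem exists_r (m : ℕ) (hm : 1 ≤ m) {s : ℝ} (hs : s < 1) :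
    ∃ r, 0 ≤ r ∧ r < rad m ∧ s + ast m * r ^ (m + 1) ≤ r := by
  have hc : ContinuousAt (fun r : ℝ => r - ast m * r ^ (m + 1)) (rad m) := by fun_prop
  have h1 : ∀ᶠ r in 𝓝 (rad m), s < r - ast m * r ^ (m + 1) := by
    have := hc.eventually (lt_mem_nhds (a := s) (by
      show s < rad m - ast m * rad m ^ (m + 1)
      rw [ast_rad' m hm]
      exact hs))
    exact this
  have h2 : ∀ᶠ r in 𝓝[<] (rad m), s < r - ast m * r ^ (m + 1) := h1.filter_mono nhdsWithin_le_nhds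
  have h3 : ∀ᶠ r in 𝓝[<] (rad m), r < rad m := eventually_mem_nhdsWithin
  have h4 : ∀ᶠ r in 𝓝[<] (rad m), 0 < r :=
    (lt_mem_nhds (by linarith [rad_gt m hm])).filter_mono nhdsWithin_le_nhds
  obtain ⟨r, h5, h6, h7⟩ := (h2.and (h3.and h4)).exists
  exact ⟨r, h7.le, h6, by linarith⟩

theorem exists_fix (m : ℕ) (hm : 1 ≤ m) {r : ℝ} (hr0 : 0 ≤ r) (hr : r < rad m) (w : ℂ)
    (hw : ‖w‖ + ast m * r ^ (m + 1) ≤ r) : ∃ z, ‖z‖ ≤ r ∧ ff m z = w := by
  have hK := lip_lt m hm hr0 hr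
  have hK0 : 0 ≤ ast m * ((m + 1) * r ^ m) := by
    have := ast_pos m hm
    positivity
  set K : NNReal := ⟨ast m * ((m + 1) * r ^ m), hK0⟩ with hKd
  set Φ : ℂ → ℂ := fun z => w + (ast m : ℂ) * z ^ (m + 1) with hΦ
  have hmaps : MapsTo Φ (closedBall 0 r) (closedBall 0 r) := by
    intro z hz
    rw [mem_closedBall_zero_iff] at hz ⊢
    refine (norm_add_le _ _).trans (le_trans ?_ hw)
    rw [norm_mul, Complex.norm_real, Real.norm_of_nonneg (ast_pos m hm).le, norm_pow]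
    have := (ast_pos m hm).le
    gcongr
  have hcon : ContractingWith K (hmaps.restrict Φ (closedBall 0 r) (closedBall 0 r)) := by
    refine ⟨by rw [← NNReal.coe_lt_coe]; exact hK, ?_⟩
    refine LipschitzWith.of_dist_le_mul fun x y => ?_
    obtain ⟨x, hx⟩ := x
    obtain ⟨y, hy⟩ := y
    rw [mem_closedBall_zero_iff] at hx hy
    show dist (Φ x) (Φ y) ≤ _ * dist x y
    rw [dist_eq_norm, dist_eq_norm]
    have h1 : Φ x - Φ y = (ast m : ℂ) * (x ^ (m + 1) - y ^ (m + 1)) := by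
      simp only [hΦ]
      ring
    rw [h1, norm_mul, Complex.norm_real, Real.norm_of_nonneg (ast_pos m hm).le]
    have h2 := norm_pow_sub_le m x y r hx hy
    calc ast m * ‖x ^ (m + 1) - y ^ (m + 1)‖ ≤ ast m * ((m + 1) * r ^ m * ‖x - y‖) :=
          mul_le_mul_of_nonneg_left h2 (ast_pos m hm).le
      _ = _ := by
          show _ = (ast m * ((m + 1) * r ^ m)) * ‖x - y‖
          ring
  obtain ⟨z, hz, hfix, -, -⟩ := ContractingWith.exists_fixedPoint' isClosed_closedBall.isComplete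
    hmaps hcon (x := 0) (by rw [mem_closedBall_zero_iff, norm_zero]; exact hr0) (edist_ne_top _ _)
  refine ⟨z, by simpa using hz, ?_⟩
  have h1 : w + (ast m : ℂ) * z ^ (m + 1) = z := hfix
  unfold ff
  linear_combination (-1 : ℂ) * h1

theorem exists_inv (m : ℕ) (hm : 1 ≤ m) (w : ℂ) (hw : ‖w‖ < 1) :
    ∃ z, ‖z‖ < rad m ∧ ff m z = w := by
  obtain ⟨r, h0, h1, h2⟩ := exists_r m hm hw
  obtain ⟨z, hz, h3⟩ := exists_fix m hm h0 h1 w h2
  exact ⟨z, hz.trans_lt h1, h3⟩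

open Classical in
/-- the inverse function -/
noncomputable def gg (m : ℕ) (hm : 1 ≤ m) (w : ℂ) : ℂ :=
  if hw : ‖w‖ < 1 then (exists_inv m hm w hw).choose else 0

theorem gg_lt (m : ℕ) (hm : 1 ≤ m) (w : ℂ) (hw : ‖w‖ < 1) : ‖gg m hm w‖ < rad m := by
  unfold gg
  rw [dif_pos hw]
  exact (exists_inv m hm w hw).choose_spec.1

theorem ff_gg (m : ℕ) (hm : 1 ≤ m) (w : ℂ) (hw : ‖w‖ < 1) : ff m (gg m hm w) = w := by
  unfold gg
  rw [dif_pos hw]
  exact (exists_inv m hm w hw).choose_spec.2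

theorem gg_eq (m : ℕ) (hm : 1 ≤ m) (z : ℂ) (hz : ‖z‖ < rad m) (hw : ‖ff m z‖ < 1) :
    gg m hm (ff m z) = z := by
  refine ff_inj m hm ?_ ?_ (ff_gg m hm _ hw)
  · rw [mem_ball_zero_iff]
    exact gg_lt m hm _ hw
  · rw [mem_ball_zero_iff]
    exact hz

theorem gg_le (m : ℕ) (hm : 1 ≤ m) {r : ℝ} (hr0 : 0 ≤ r) (hr : r < rad m) (w : ℂ)
    (hw : ‖w‖ + ast m * r ^ (m + 1) ≤ r) (hw1 : ‖w‖ < 1) : ‖gg m hm w‖ ≤ r := by
  obtain ⟨z, hz, h3⟩ := exists_fix m hm hr0 hr w hw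
  have := gg_eq m hm z (hz.trans_lt hr) (by rw [h3]; exact hw1)
  rw [h3] at this
  rw [this]
  exact hz

theorem gg_cont (m : ℕ) (hm : 1 ≤ m) (w₀ : ℂ) (hw₀ : ‖w₀‖ < 1) : ContinuousAt (gg m hm) w₀ := by
  obtain ⟨s, hs1, hs2⟩ := exists_between hw₀
  obtain ⟨r, h0, h1, h2⟩ := exists_r m hm hs2
  have hK := lip_lt m hm h0 h1
  set c := 1 - ast m * ((m + 1) * r ^ m) with hc
  have hc0 : 0 < c := by linarith
  have hev : ∀ᶠ w in 𝓝 w₀, ‖w‖ < s := by
    have : ContinuousAt (fun w : ℂ => ‖w‖) w₀ := by fun_prop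
    exact this.eventually (gt_mem_nhds hs1)
  have hle : ∀ w : ℂ, ‖w‖ < s → ‖gg m hm w‖ ≤ r := fun w hw =>
    gg_le m hm h0 h1 w (by linarith) (hw.trans hs2)
  have hbd : ∀ᶠ w in 𝓝 w₀, ‖gg m hm w - gg m hm w₀‖ ≤ c⁻¹ * ‖w - w₀‖ := by
    filter_upwards [hev] with w hw
    have h3 := ff_lower m hm (gg m hm w) (gg m hm w₀) (hle w hw) (hle w₀ hs1)
    rw [ff_gg m hm w (hw.trans hs2), ff_gg m hm w₀ hw₀] at h3
    rw [inv_mul_eq_div, le_div_iff₀ hc0, mul_comm]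
    exact h3
  have ht : Tendsto (fun w : ℂ => c⁻¹ * ‖w - w₀‖) (𝓝 w₀) (𝓝 0) := by
    have : ContinuousAt (fun w : ℂ => c⁻¹ * ‖w - w₀‖) w₀ := by fun_prop
    have h := this.tendsto
    simpa using h
  rw [ContinuousAt, tendsto_iff_norm_sub_tendsto_zero]
  exact squeeze_zero' (Eventually.of_forall fun w => norm_nonneg _) hbd ht

theorem ff_deriv (m : ℕ) (z : ℂ) :
    HasDerivAt (ff m) (1 - (ast m : ℂ) * ((m + 1) * z ^ m)) z := by
  have h := (hasDerivAt_id' z).fun_sub ((hasDerivAt_pow (m + 1) z).const_mul (ast m : ℂ))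
  refine h.congr_deriv ?_
  simp

theorem deriv_ne (m : ℕ) (hm : 1 ≤ m) (z : ℂ) (hz : ‖z‖ < rad m) :
    (1 - (ast m : ℂ) * ((m + 1) * z ^ m)) ≠ 0 := by
  intro h
  have h1 : (ast m : ℂ) * ((m + 1) * z ^ m) = 1 := by linear_combination (-1 : ℂ) * h
  have h2 := congrArg norm h1
  rw [norm_mul, norm_mul, norm_pow, Complex.norm_real, Real.norm_of_nonneg (ast_pos m hm).le,
    norm_one] at h2
  have h3 : ‖((m : ℂ) + 1)‖ = m + 1 := by
    have : ((m : ℂ) + 1) = ((m + 1 : ℕ) : ℂ) := by push_cast; ring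
    rw [this, Complex.norm_natCast]
    push_cast
    ring
  rw [h3] at h2
  have := lip_lt m hm (norm_nonneg z) hz
  linarith

theorem t : S_ex := by
  intro m hm
  show BiUnivalent (ff m)
  have hsub : ball (0 : ℂ) 1 ⊆ ball 0 (rad m) := ball_subset_ball (rad_gt m hm).le
  refine ⟨by simp [ff], ?_, ?_, (ff_inj m hm).mono hsub, gg m hm, ?_, ?_, ?_, ?_⟩
  · have h := ff_deriv m 0
    have hm0 : m ≠ 0 := by omega
    simpa [hm0] using h
  · exact fun z _ => (ff_deriv m z).differentiableAt.differentiableWithinAt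
  · have h0 : ff m 0 = 0 := by simp [ff]
    have := gg_eq m hm 0 (by rw [norm_zero]; linarith [rad_gt m hm]) (by rw [h0, norm_zero]; norm_num)
    rwa [h0] at this
  · have h0 : ff m 0 = 0 := by simp [ff]
    have hc : ContinuousAt (fun z : ℂ => ‖ff m z‖) 0 := (ff_deriv m 0).continuousAt.norm
    have h1 : ∀ᶠ z in 𝓝 (0 : ℂ), ‖ff m z‖ < 1 :=
      hc.eventually (gt_mem_nhds (by show ‖ff m 0‖ < 1; rw [h0, norm_zero]; norm_num))
    have h2 : ∀ᶠ z in 𝓝 (0 : ℂ), ‖z‖ < rad m := by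
      have : ContinuousAt (fun z : ℂ => ‖z‖) 0 := by fun_prop
      exact this.eventually (gt_mem_nhds (by
        show ‖(0 : ℂ)‖ < rad m
        rw [norm_zero]
        linarith [rad_gt m hm]))
    filter_upwards [h1, h2] with z hz1 hz2
    exact gg_eq m hm z hz2 hz1
  · intro w hw
    rw [mem_ball_zero_iff] at hw
    have hev : ∀ᶠ y in 𝓝 w, ff m (gg m hm y) = y := by
      have : ContinuousAt (fun z : ℂ => ‖z‖) w := by fun_prop
      filter_upwards [this.eventually (gt_mem_nhds hw)] with y hy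
      exact ff_gg m hm y hy
    exact ((HasDerivAt.of_local_left_inverse (gg_cont m hm w hw) (ff_deriv m _)
      (deriv_ne m hm _ (gg_lt m hm w hw)) hev).differentiableAt).differentiableWithinAt
  · intro w hw w' hw' h
    rw [mem_ball_zero_iff] at hw hw'
    rw [← ff_gg m hm w hw, ← ff_gg m hm w' hw', h]

end Pool.Agent.Y165.BU.Ex
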